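import Pool.Agent.ArcConfl.Reach
import Pool.Agent.LibConfluent.Defs

set_option autoImplicit false

/-!
# Limits of chains
-/

open Set Metric Filter Topology

namespace Pool.Agent.ArcConfl

open Pool.Agent.LibConfluent

/-- chains as functions -/
theorem rtg_toFun {α : Type*} {r : α → α → Prop} {x y : α} (h : Relation.ReflTransGen r x y) :
    ∃ (n : ℕ) (c : ℕ → α), c 0 = x ∧ (∀ k, n ≤ k → c k = y) ∧ ∀ k < n, r (c k) (c (k + 1)) := by
  induction h with
  | refl => exact ⟨0, fun _ => x, rfl, fun _ _ => rfl, fun k hk => absurd hk (Nat.not_lt_zero k)⟩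
  | @tail b z _ hbz ih =>
      obtain ⟨n, c, h0, h1, h2⟩ := ih
      refine ⟨n + 1, fun k => if k ≤ n then c k else z, by simp [h0], ?_, ?_⟩
      · intro k hk
        simp only
        rw [if_neg (by omega)]
      · intro k hk
        simp only
        rcases Nat.lt_or_ge k n with hk' | hk'
        · rw [if_pos (by omega), if_pos (by omega)]; exact h2 k hk'
        · obtain rfl : k = n := by omega
          rw [if_pos le_rfl, if_neg (by omega), h1 k le_rfl]; exact hbz

section

variable {X : Type*} [MetricSpace X]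

/-- Connected sets are chain connected. -/
theorem chain_of_preconnected {K : Set X} (hK : IsPreconnected K) {a b : X} (ha : a ∈ K)
    (hb : b ∈ K) {δ : ℝ} (hδ : 0 < δ) :
    Relation.ReflTransGen (fun x y => dist x y < δ ∧ x ∈ K ∧ y ∈ K) a b := by
  set r : X → X → Prop := fun x y => dist x y < δ ∧ x ∈ K ∧ y ∈ K with hr
  by_contra hcon
  let A : Set X := {y | y ∈ K ∧ Relation.ReflTransGen r a y}
  let B : Set X := {y | y ∈ K ∧ ¬ Relation.ReflTransGen r a y}
  have h := hK (⋃ y ∈ A, ball y δ) (⋃ y ∈ B, ball y δ)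
    (isOpen_biUnion fun _ _ => isOpen_ball) (isOpen_biUnion fun _ _ => isOpen_ball)
    (fun y hy => by
      by_cases h : Relation.ReflTransGen r a y
      · exact Or.inl (mem_biUnion (show y ∈ A from ⟨hy, h⟩) (mem_ball_self hδ))
      · exact Or.inr (mem_biUnion (show y ∈ B from ⟨hy, h⟩) (mem_ball_self hδ)))
    ⟨a, ha, mem_biUnion (show a ∈ A from ⟨ha, Relation.ReflTransGen.refl⟩) (mem_ball_self hδ)⟩
    ⟨b, hb, mem_biUnion (show b ∈ B from ⟨hb, hcon⟩) (mem_ball_self hδ)⟩
  obtain ⟨z, hz, hzA, hzB⟩ := h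
  simp only [mem_iUnion, exists_prop] at hzA hzB
  obtain ⟨y, hy, hzy⟩ := hzA
  obtain ⟨y', hy', hzy'⟩ := hzB
  rw [mem_ball] at hzy hzy'
  apply hy'.2
  refine (hy.2.tail ⟨?_, hy.1, hz⟩).tail ⟨hzy', hz, hy'.1⟩
  rw [dist_comm]; exact hzy

/-- the limit set of a sequence of chains -/
def limSet (w : ℕ → ℕ → X) (j : ℕ → ℕ) : Set X :=
  {z | ∀ ε > 0, ∀ N, ∃ n ≥ N, ∃ i ≤ j n, dist (w n i) z < ε}

theorem limSet_closed (w : ℕ → ℕ → X) (j : ℕ → ℕ) : IsClosed (limSet w j) := by
  rw [← closure_subset_iff_isClosed]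
  intro z hz ε hε N
  obtain ⟨z', hz', hd⟩ := Metric.mem_closure_iff.mp hz (ε / 2) (half_pos hε)
  obtain ⟨n, hn, i, hi, h⟩ := hz' (ε / 2) (half_pos hε) N
  refine ⟨n, hn, i, hi, ?_⟩
  calc dist (w n i) z ≤ dist (w n i) z' + dist z' z := dist_triangle _ _ _
    _ < ε / 2 + ε / 2 := by rw [dist_comm z' z]; exact add_lt_add h hd
    _ = ε := add_halves ε

theorem limSet_aux [CompactSpace X] {w : ℕ → ℕ → X} {j : ℕ → ℕ} {q₀ : X} (h0 : ∀ n, w n 0 = q₀)
    (hst : ∀ n, ∀ k < j n, dist (w n k) (w n (k + 1)) < 1 / ((n : ℝ) + 1))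
    {t t' : Set X} (ht : IsClosed t) (ht' : IsClosed t') (hsub : limSet w j ⊆ t ∪ t')
    (hdis : limSet w j ∩ (t ∩ t') = ∅) (hq₀ : q₀ ∈ limSet w j ∩ t) :
    limSet w j ∩ t' = ∅ := by
  have hc := limSet_closed w j
  have hd : Disjoint (limSet w j ∩ t) (limSet w j ∩ t') := by
    rw [Set.disjoint_iff_inter_eq_empty, ← hdis]
    ext z; simp only [mem_inter_iff]; tauto
  obtain ⟨ρ, hρ, hthick⟩ := hd.exists_thickenings (hc.inter ht).isCompact (hc.inter ht')
  have hρ2 : 0 < ρ / 2 := half_pos hρ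
  set P1 := limSet w j ∩ t with hP1
  set P2 := limSet w j ∩ t' with hP2
  have hO : ∃ N, ∀ n ≥ N, ∀ i ≤ j n, w n i ∈ thickening (ρ / 2) P1 ∪ thickening (ρ / 2) P2 := by
    by_contra hcon
    push Not at hcon
    choose n hn i hi hout using hcon
    have hcomp : IsCompact (thickening (ρ / 2) P1 ∪ thickening (ρ / 2) P2)ᶜ :=
      (isOpen_thickening.union isOpen_thickening).isClosed_compl.isCompact
    obtain ⟨z, hz, φ, hφ, hlim⟩ := hcomp.tendsto_subseq (x := fun N => w (n N) (i N)) hout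
    have hzP : z ∈ limSet w j := by
      intro ε hε N
      obtain ⟨K, hK⟩ := (Metric.tendsto_atTop.mp hlim) ε hε
      have h1 := hK (max K N) (le_max_left _ _)
      refine ⟨n (φ (max K N)), ?_, i (φ (max K N)), hi _, h1⟩
      calc N ≤ max K N := le_max_right _ _
        _ ≤ φ (max K N) := hφ.id_le _
        _ ≤ _ := hn _
    apply hz
    rcases hsub hzP with h | h
    · exact Or.inl (self_subset_thickening hρ2 _ ⟨hzP, h⟩)
    · exact Or.inr (self_subset_thickening hρ2 _ ⟨hzP, h⟩)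
  obtain ⟨N, hN⟩ := hO
  obtain ⟨N', hN'⟩ := exists_nat_one_div_lt hρ2
  have key : ∀ n ≥ max N N', ∀ i ≤ j n, w n i ∈ thickening (ρ / 2) P1 := by
    intro n hn i
    induction i with
    | zero => intro _; rw [h0]; exact self_subset_thickening hρ2 _ hq₀
    | succ i ih =>
        intro hi
        have h1 := ih (by omega)
        have h2 := hst n i (by omega)
        have h3 : dist (w n i) (w n (i + 1)) < ρ / 2 := by
          refine h2.trans_le (le_trans ?_ hN'.le)
          have : (N' : ℝ) ≤ n := by exact_mod_cast (le_max_right N N').trans hn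
          gcongr
        rcases hN n ((le_max_left _ _).trans hn) (i + 1) hi with h4 | h4
        · exact h4
        · exfalso
          rw [mem_thickening_iff] at h1 h4
          obtain ⟨p, hp, hpd⟩ := h1
          obtain ⟨p', hp', hpd'⟩ := h4
          have e1 : w n (i + 1) ∈ thickening ρ P1 := by
            rw [mem_thickening_iff]
            refine ⟨p, hp, ?_⟩
            calc dist (w n (i + 1)) p ≤ dist (w n (i + 1)) (w n i) + dist (w n i) p :=
                  dist_triangle _ _ _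
              _ < ρ / 2 + ρ / 2 := by rw [dist_comm (w n (i + 1))]; exact add_lt_add h3 hpd
              _ = ρ := add_halves ρ
          have e2 : w n (i + 1) ∈ thickening ρ P2 := by
            rw [mem_thickening_iff]
            exact ⟨p', hp', hpd'.trans (half_lt_self hρ)⟩
          exact Set.disjoint_left.mp hthick e1 e2
  rw [Set.eq_empty_iff_forall_notMem]
  intro z hz
  obtain ⟨n, hn, i, hi, hd⟩ := hz.1 (ρ / 2) hρ2 (max N N')
  have h1 := key n hn i hi
  have e2 : w n i ∈ thickening ρ P2 := by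
    rw [mem_thickening_iff]
    exact ⟨z, hz, hd.trans (half_lt_self hρ)⟩
  exact Set.disjoint_left.mp hthick (thickening_mono (by linarith) _ h1) e2

theorem base_mem_limSet {w : ℕ → ℕ → X} {j : ℕ → ℕ} {q₀ : X} (h0 : ∀ n, w n 0 = q₀) :
    q₀ ∈ limSet w j := fun ε hε N => ⟨N, le_rfl, 0, Nat.zero_le _, by rw [h0]; simpa using hε⟩

theorem limSet_preconnected [CompactSpace X] {w : ℕ → ℕ → X} {j : ℕ → ℕ} {q₀ : X}
    (h0 : ∀ n, w n 0 = q₀)
    (hst : ∀ n, ∀ k < j n, dist (w n k) (w n (k + 1)) < 1 / ((n : ℝ) + 1)) :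
    IsPreconnected (limSet w j) := by
  rw [isPreconnected_closed_iff]
  intro t t' ht ht' hsub h1 h2
  by_contra hcon
  rw [Set.not_nonempty_iff_eq_empty] at hcon
  have hq := base_mem_limSet (j := j) h0
  rcases hsub hq with h | h
  · rw [limSet_aux h0 hst ht ht' hsub hcon ⟨hq, h⟩] at h2
    exact Set.not_nonempty_empty h2
  · rw [limSet_aux h0 hst ht' ht (by rwa [union_comm]) (by rwa [inter_comm t']) ⟨hq, h⟩] at h1
    exact Set.not_nonempty_empty h1

/-- limits of points of the chains are in the limit set -/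
theorem lim_mem_limSet {w : ℕ → ℕ → X} {j : ℕ → ℕ} {i : ℕ → ℕ} (hi : ∀ n, i n ≤ j n)
    {φ : ℕ → ℕ} (hφ : StrictMono φ) {z : X}
    (hlim : Tendsto (fun n => w (φ n) (i (φ n))) atTop (𝓝 z)) : z ∈ limSet w j := by
  intro ε hε N
  obtain ⟨K, hK⟩ := (Metric.tendsto_atTop.mp hlim) ε hε
  exact ⟨φ (max K N), (le_max_right _ _).trans (hφ.id_le _), i _, hi _,
    hK (max K N) (le_max_left _ _)⟩

/-- A compactness principle: arbitrarily fine chains of almost solutions give a connected set of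
solutions. -/
theorem component_meets [CompactSpace X] {D : X → ℝ} (hD : Continuous D) {p₀ : X} {F : Set X}
    (hF : IsClosed F)
    (h : ∀ ε > 0, ∃ y ∈ F, Relation.ReflTransGen
      (fun p q => dist p q < ε ∧ |D p| < ε ∧ |D q| < ε) p₀ y)
    (hp₀ : D p₀ = 0) :
    ∃ z ∈ F, z ∈ connectedComponentIn {p | D p = 0} p₀ := by
  have hpos : ∀ n : ℕ, (0 : ℝ) < 1 / ((n : ℝ) + 1) := fun n => Nat.one_div_pos_of_nat
  choose y hyF hy using fun n : ℕ => h (1 / ((n : ℝ) + 1)) (hpos n)
  choose j w h0 h1 h2 using fun n => rtg_toFun (hy n)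
  have hpre : IsPreconnected (limSet w j) := limSet_preconnected h0 (fun n k hk => (h2 n k hk).1)
  have hDw : ∀ n, ∀ i ≤ j n, |D (w n i)| < 1 / ((n : ℝ) + 1) := by
    intro n i hi
    rcases Nat.eq_zero_or_pos i with rfl | hi'
    · rw [h0, hp₀, abs_zero]; exact hpos n
    · obtain ⟨k, rfl⟩ : ∃ k, i = k + 1 := ⟨i - 1, by omega⟩
      exact (h2 n k (by omega)).2.2
  have hsub : limSet w j ⊆ {p | D p = 0} := by
    intro z hz
    change D z = 0
    by_contra hne
    have hpos' : 0 < |D z| / 2 := half_pos (abs_pos.mpr hne)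
    obtain ⟨ε, hε, hcont⟩ := Metric.continuousAt_iff.mp hD.continuousAt (|D z| / 2) hpos'
    obtain ⟨N, hN⟩ := exists_nat_one_div_lt hpos'
    obtain ⟨n, hn, i, hi, hd⟩ := hz ε hε N
    have a1 := hcont hd
    have a2 := hDw n i hi
    have a3 : (1 : ℝ) / ((n : ℝ) + 1) ≤ 1 / ((N : ℝ) + 1) := by
      have : (N : ℝ) ≤ n := by exact_mod_cast hn
      gcongr
    rw [Real.dist_eq] at a1
    have a4 : |D z| ≤ |D (w n i)| + |D (w n i) - D z| := by
      have := abs_sub_abs_le_abs_sub (D z) (D (w n i))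
      rw [abs_sub_comm] at this
      linarith
    linarith
  obtain ⟨z, hz, φ, hφ, hlim⟩ := hF.isCompact.tendsto_subseq (x := y) hyF
  have hzl : z ∈ limSet w j := by
    refine lim_mem_limSet (i := j) (fun _ => le_rfl) hφ ?_
    refine hlim.congr (fun n => ?_)
    exact (h1 _ _ le_rfl).symm
  exact ⟨z, hz, hpre.subset_connectedComponentIn (base_mem_limSet h0) hsub hzl⟩

end

end Pool.Agent.ArcConfl
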