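import Pool.Agent.ArcConfl.Limit

set_option autoImplicit false

/-!
# Confluent maps onto arc-like continua: products are confluent
-/

open Set Metric Filter Topology

namespace Pool.Agent.ArcConfl

open Pool.Agent.LibConfluent

/-- A space is arc-like when for every `ε > 0` it has a continuous map onto `[0, 1]` whose fibres
have diameter less than `ε`. -/
def ArcLike (Y : Type) [MetricSpace Y] : Prop :=
  ∀ ε > 0, ∃ g : Y → unitInterval, Continuous g ∧ Function.Surjective g ∧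
    ∀ t, Metric.diam (g ⁻¹' {t}) < ε

section

variable {X Y Q : Type} [MetricSpace X] [MetricSpace Y] [MetricSpace Q]

/-- The window property: a fine chain in `Q` starting at `q₀` whose heights fill `[m, M]` forces
the chain component of `x₀` in `{m - 1 ≤ height ≤ M + 1}` to reach both ends. -/
theorem window_prop [CompactSpace Q] {f : X → Y} (hf : Confluent f) {Φ : Y → ℝ}
    (hΦ : Continuous Φ) {ψ : Q → Y} (hψ : Continuous ψ) {x₀ : X} {q₀ : Q} (h : f x₀ = ψ q₀)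
    {δ : ℝ} (hδ : 0 < δ) :
    ∃ δ' > 0, ∀ (w : ℕ → Q) (j : ℕ), w 0 = q₀ → (∀ k < j, dist (w k) (w (k + 1)) < δ') →
      ∀ m M : ℝ, (∀ i ≤ j, m ≤ Φ (ψ (w i)) ∧ Φ (ψ (w i)) ≤ M) → (∃ i ≤ j, Φ (ψ (w i)) = m) →
        (∃ i ≤ j, Φ (ψ (w i)) = M) →
        (∃ x, Relation.ReflTransGen (fun y y' => dist y y' < δ ∧
          (m - 1 ≤ Φ (f y) ∧ Φ (f y) ≤ M + 1) ∧ (m - 1 ≤ Φ (f y') ∧ Φ (f y') ≤ M + 1)) x₀ x ∧
          Φ (f x) ≤ m + 1) ∧
        (∃ x, Relation.ReflTransGen (fun y y' => dist y y' < δ ∧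
          (m - 1 ≤ Φ (f y) ∧ Φ (f y) ≤ M + 1) ∧ (m - 1 ≤ Φ (f y') ∧ Φ (f y') ≤ M + 1)) x₀ x ∧
          M - 1 ≤ Φ (f x)) := by
  by_contra hcon
  have hcon' : ∀ δ' > 0, ∃ (w : ℕ → Q) (j : ℕ) (m M : ℝ) (a b : ℕ), w 0 = q₀ ∧
      (∀ k < j, dist (w k) (w (k + 1)) < δ') ∧
      (∀ i ≤ j, m ≤ Φ (ψ (w i)) ∧ Φ (ψ (w i)) ≤ M) ∧ a ≤ j ∧ Φ (ψ (w a)) = m ∧ b ≤ j ∧
      Φ (ψ (w b)) = M ∧ ¬ ((∃ x, Relation.ReflTransGen (fun y y' => dist y y' < δ ∧
          (m - 1 ≤ Φ (f y) ∧ Φ (f y) ≤ M + 1) ∧ (m - 1 ≤ Φ (f y') ∧ Φ (f y') ≤ M + 1)) x₀ x ∧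
          Φ (f x) ≤ m + 1) ∧
        (∃ x, Relation.ReflTransGen (fun y y' => dist y y' < δ ∧
          (m - 1 ≤ Φ (f y) ∧ Φ (f y) ≤ M + 1) ∧ (m - 1 ≤ Φ (f y') ∧ Φ (f y') ≤ M + 1)) x₀ x ∧
          M - 1 ≤ Φ (f x))) := by
    intro δ' hδ'
    by_contra hno
    apply hcon
    refine ⟨δ', hδ', fun w j h0 hst m M hmM ⟨a, ha, hma⟩ ⟨b, hb, hMb⟩ => ?_⟩
    by_contra hAB
    exact hno ⟨w, j, m, M, a, b, h0, hst, hmM, ha, hma, hb, hMb, hAB⟩
  have hpos : ∀ n : ℕ, (0 : ℝ) < 1 / ((n : ℝ) + 1) := fun n => Nat.one_div_pos_of_nat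
  choose w j m M a b h0 hst hmM ha hma hb hMb hno using
    fun n : ℕ => hcon' (1 / ((n : ℝ) + 1)) (hpos n)
  have hh : Continuous (fun q => Φ (ψ q)) := hΦ.comp hψ
  -- a convergent subsequence
  obtain ⟨⟨za, zb⟩, -, φ, hφ, hlim⟩ := (isCompact_univ (X := Q × Q)).tendsto_subseq
    (x := fun n => (w n (a n), w n (b n))) (fun _ => mem_univ _)
  have hla : Tendsto (fun n => w (φ n) (a (φ n))) atTop (𝓝 za) :=
    (continuous_fst.tendsto _).comp hlim
  have hlb : Tendsto (fun n => w (φ n) (b (φ n))) atTop (𝓝 zb) :=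
    (continuous_snd.tendsto _).comp hlim
  have hlm : Tendsto (fun n => m (φ n)) atTop (𝓝 (Φ (ψ za))) := by
    refine ((hh.tendsto _).comp hla).congr (fun n => ?_)
    exact hma _
  have hlM : Tendsto (fun n => M (φ n)) atTop (𝓝 (Φ (ψ zb))) := by
    refine ((hh.tendsto _).comp hlb).congr (fun n => ?_)
    exact hMb _
  set w' : ℕ → ℕ → Q := fun n => w (φ n) with hw'
  set j' : ℕ → ℕ := fun n => j (φ n) with hj'
  have h0' : ∀ n, w' n 0 = q₀ := fun n => h0 _
  have hst' : ∀ n, ∀ k < j' n, dist (w' n k) (w' n (k + 1)) < 1 / ((n : ℝ) + 1) := by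
    intro n k hk
    refine (hst (φ n) k hk).trans_le ?_
    have : (n : ℝ) ≤ (φ n : ℝ) := by exact_mod_cast hφ.id_le n
    gcongr
  set P := limSet w' j' with hP
  have hPc : IsClosed P := limSet_closed w' j'
  have hPp : IsPreconnected P := limSet_preconnected h0' hst'
  have hq₀ : q₀ ∈ P := base_mem_limSet h0'
  have hzaP : za ∈ P := lim_mem_limSet (i := fun n => a (φ n)) (fun n => ha _) strictMono_id hla
  have hzbP : zb ∈ P := lim_mem_limSet (i := fun n => b (φ n)) (fun n => hb _) strictMono_id hlb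
  have hPw : ∀ z ∈ P, Φ (ψ za) ≤ Φ (ψ z) ∧ Φ (ψ z) ≤ Φ (ψ zb) := by
    intro z hz
    constructor
    · by_contra hc
      push Not at hc
      set η := (Φ (ψ za) - Φ (ψ z)) / 2 with hη
      have hη0 : 0 < η := by rw [hη]; linarith
      obtain ⟨ε, hε, hcont⟩ := Metric.continuousAt_iff.mp hh.continuousAt η hη0
      obtain ⟨N, hN⟩ := (Metric.tendsto_atTop.mp hlm) η hη0
      obtain ⟨n, hn, i, hi, hd⟩ := hz ε hε N
      have a1 := hcont hd
      have a2 := hN n hn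
      have a3 := (hmM (φ n) i hi).1
      rw [Real.dist_eq, abs_lt] at a1 a2
      simp only [hw'] at a1
      linarith [a1.1, a1.2, a2.1, a2.2]
    · by_contra hc
      push Not at hc
      set η := (Φ (ψ z) - Φ (ψ zb)) / 2 with hη
      have hη0 : 0 < η := by rw [hη]; linarith
      obtain ⟨ε, hε, hcont⟩ := Metric.continuousAt_iff.mp hh.continuousAt η hη0
      obtain ⟨N, hN⟩ := (Metric.tendsto_atTop.mp hlM) η hη0
      obtain ⟨n, hn, i, hi, hd⟩ := hz ε hε N
      have a1 := hcont hd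
      have a2 := hN n hn
      have a3 := (hmM (φ n) i hi).2
      rw [Real.dist_eq, abs_lt] at a1 a2
      simp only [hw'] at a1
      linarith [a1.1, a1.2, a2.1, a2.2]
  -- confluence over the continuum `ψ '' P`
  have hsub : IsSubcontinuum (ψ '' P) :=
    ⟨hPc.isCompact.image hψ, ⟨⟨ψ q₀, q₀, hq₀, rfl⟩, hPp.image _ hψ.continuousOn⟩⟩
  have hx₀ : x₀ ∈ f ⁻¹' (ψ '' P) := ⟨q₀, hq₀, h.symm⟩
  set K := connectedComponentIn (f ⁻¹' (ψ '' P)) x₀ with hK
  have himg : f '' K = ψ '' P := hf.image_component _ hsub K ⟨x₀, hx₀, rfl⟩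
  have hKp : IsPreconnected K := isPreconnected_connectedComponentIn
  have hx₀K : x₀ ∈ K := mem_connectedComponentIn hx₀
  have hKw : ∀ y ∈ K, Φ (ψ za) ≤ Φ (f y) ∧ Φ (f y) ≤ Φ (ψ zb) := by
    intro y hy
    have : f y ∈ ψ '' P := by rw [← himg]; exact ⟨y, hy, rfl⟩
    obtain ⟨z, hz, hzy⟩ := this
    rw [← hzy]
    exact hPw z hz
  obtain ⟨xa, hxa, hfa⟩ : ψ za ∈ f '' K := by rw [himg]; exact ⟨za, hzaP, rfl⟩
  obtain ⟨xb, hxb, hfb⟩ : ψ zb ∈ f '' K := by rw [himg]; exact ⟨zb, hzbP, rfl⟩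
  obtain ⟨N1, hN1⟩ := (Metric.tendsto_atTop.mp hlm) 1 one_pos
  obtain ⟨N2, hN2⟩ := (Metric.tendsto_atTop.mp hlM) 1 one_pos
  set n := max N1 N2 with hn
  have b1 := hN1 n (le_max_left _ _)
  have b2 := hN2 n (le_max_right _ _)
  rw [Real.dist_eq, abs_lt] at b1 b2
  have hchain : ∀ x ∈ K, Relation.ReflTransGen (fun y y' => dist y y' < δ ∧
      (m (φ n) - 1 ≤ Φ (f y) ∧ Φ (f y) ≤ M (φ n) + 1) ∧
      (m (φ n) - 1 ≤ Φ (f y') ∧ Φ (f y') ≤ M (φ n) + 1)) x₀ x := by
    intro x hx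
    refine rtg_mono ?_ (chain_of_preconnected hKp hx₀K hx hδ)
    rintro y y' ⟨c1, c2, c3⟩
    have d1 := hKw y c2
    have d2 := hKw y' c3
    refine ⟨c1, ⟨?_, ?_⟩, ?_, ?_⟩ <;> linarith [d1.1, d1.2, d2.1, d2.2, b1.1, b1.2, b2.1, b2.2]
  exact hno (φ n) ⟨⟨xa, hchain xa hxa, by rw [hfa]; linarith [b1.1, b1.2]⟩,
    ⟨xb, hchain xb hxb, by rw [hfb]; linarith [b2.1, b2.2]⟩⟩

end

section

variable {X Y Q : Type} [MetricSpace X] [MetricSpace Y] [MetricSpace Q]

/-- In an arc-like compact space points at almost the same height are close. -/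
theorem ArcLike.scale [CompactSpace Y] (hY : ArcLike Y) {ε : ℝ} (hε : 0 < ε) :
    ∃ Φ : Y → ℝ, Continuous Φ ∧ ∀ y y', |Φ y - Φ y'| < 6 → dist y y' < ε := by
  obtain ⟨g, hg, -, hfib⟩ := hY ε hε
  have hgr : Continuous (fun y => (g y : ℝ)) := continuous_subtype_val.comp hg
  have key : ∃ ρ > 0, ∀ y y' : Y, |(g y : ℝ) - g y'| < ρ → dist y y' < ε := by
    by_contra hcon
    push Not at hcon
    have hpos : ∀ n : ℕ, (0 : ℝ) < 1 / ((n : ℝ) + 1) := fun n => Nat.one_div_pos_of_nat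
    choose y y' h1 h2 using fun n : ℕ => hcon (1 / ((n : ℝ) + 1)) (hpos n)
    obtain ⟨⟨z, z'⟩, -, φ, hφ, hlim⟩ := (isCompact_univ (X := Y × Y)).tendsto_subseq
      (x := fun n => (y n, y' n)) (fun _ => mem_univ _)
    have hl1 : Tendsto (fun n => y (φ n)) atTop (𝓝 z) := (continuous_fst.tendsto _).comp hlim
    have hl2 : Tendsto (fun n => y' (φ n)) atTop (𝓝 z') := (continuous_snd.tendsto _).comp hlim
    have hd : ε ≤ dist z z' := ge_of_tendsto' (hl1.dist hl2) (fun n => h2 _)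
    have hgz : (g z : ℝ) = g z' := by
      have l1 : Tendsto (fun n => |(g (y (φ n)) : ℝ) - g (y' (φ n))|) atTop
          (𝓝 |(g z : ℝ) - g z'|) :=
        (((hgr.tendsto _).comp hl1).sub ((hgr.tendsto _).comp hl2)).abs
      have l2 : Tendsto (fun n : ℕ => 1 / ((φ n : ℝ) + 1)) atTop (𝓝 0) :=
        tendsto_one_div_add_atTop_nhds_zero_nat.comp hφ.tendsto_atTop
      have l3 : |(g z : ℝ) - g z'| ≤ 0 := le_of_tendsto_of_tendsto' l1 l2 (fun n => (h1 _).le)
      have l4 : |(g z : ℝ) - g z'| = 0 := le_antisymm l3 (abs_nonneg _)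
      exact sub_eq_zero.mp (abs_eq_zero.mp l4)
    have hgz' : g z = g z' := Subtype.ext hgz
    have h3 := hfib (g z')
    have h4 : dist z z' ≤ Metric.diam (g ⁻¹' {g z'}) :=
      Metric.dist_le_diam_of_mem
        ((isCompact_univ (X := Y)).isBounded.subset (subset_univ _)) hgz' rfl
    linarith
  obtain ⟨ρ, hρ, hkey⟩ := key
  refine ⟨fun y => 6 / ρ * g y, continuous_const.mul hgr, fun y y' hy => hkey y y' ?_⟩
  have e1 : 6 / ρ * (g y : ℝ) - 6 / ρ * g y' = 6 / ρ * ((g y : ℝ) - g y') := by ring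
  rw [e1, abs_mul, abs_of_pos (by positivity)] at hy
  have h6 : 0 < 6 / ρ := by positivity
  rw [div_mul_eq_mul_div, div_lt_iff₀ hρ] at hy
  linarith

/-- Chains of almost coincidences. -/
theorem exists_chain [CompactSpace X] [CompactSpace Y] [CompactSpace Q] [ConnectedSpace Q]
    {f : X → Y} (hf : Confluent f) (hY : ArcLike Y) {ψ : Q → Y} (hψ : Continuous ψ)
    {x₀ : X} {q₀ : Q} (h : f x₀ = ψ q₀) (q₁ : Q) {ε : ℝ} (hε : 0 < ε) :
    ∃ x₁ : X, Relation.ReflTransGen (fun p q : X × Q => dist p q < ε ∧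
      dist (f p.1) (ψ p.2) < ε ∧ dist (f q.1) (ψ q.2) < ε) (x₀, q₀) (x₁, q₁) := by
  obtain ⟨Φ, hΦ, hclose⟩ := hY.scale hε
  have hg : UniformContinuous (fun x => Φ (f x)) :=
    CompactSpace.uniformContinuous_of_continuous (hΦ.comp hf.continuous)
  have hh : UniformContinuous (fun q => Φ (ψ q)) :=
    CompactSpace.uniformContinuous_of_continuous (hΦ.comp hψ)
  obtain ⟨δ1, hδ1, hu1⟩ := Metric.uniformContinuous_iff.mp hg 1 one_pos
  obtain ⟨δ2, hδ2, hu2⟩ := Metric.uniformContinuous_iff.mp hh 1 one_pos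
  set δX := min δ1 ε with hδX
  have hδX0 : 0 < δX := lt_min hδ1 hε
  obtain ⟨δ3, hδ3, hwin⟩ := window_prop hf hΦ hψ h hδX0
  set δQ := min (min δ2 δ3) ε with hδQ
  have hδQ0 : 0 < δQ := lt_min (lt_min hδ2 hδ3) hε
  -- a fine chain in `Q`
  obtain ⟨L, w, hw0, hwL, hwst⟩ := rtg_toFun (chain_of_preconnected
    (isPreconnected_univ (α := Q)) (mem_univ q₀) (mem_univ q₁) hδQ0)
  have hst : ∀ k, dist (w k) (w (k + 1)) < δQ := by
    intro k
    rcases Nat.lt_or_ge k L with hk | hk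
    · exact (hwst k hk).1
    · rw [hwL k hk, hwL (k + 1) (by omega), dist_self]; exact hδQ0
  set γ : X → ℤ := fun x => ⌊Φ (f x)⌋ with hγ
  set κ : ℕ → ℤ := fun i => ⌊Φ (ψ (w i))⌋ with hκ
  have hfl : ∀ a b : ℝ, |a - b| < 1 → |⌊a⌋ - ⌊b⌋| ≤ 1 := by
    intro a b hab
    rw [abs_lt] at hab
    rw [abs_le]
    constructor
    · have : ⌊b⌋ ≤ ⌊a⌋ + 1 := by
        rw [← Int.floor_add_one]; exact Int.floor_le_floor (by linarith)
      omega
    · have : ⌊a⌋ ≤ ⌊b⌋ + 1 := by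
        rw [← Int.floor_add_one]; exact Int.floor_le_floor (by linarith)
      omega
  let R : X → X → Prop := fun x y => dist x y < δX
  have hR : ∀ x y, R x y → R y x := fun x y hxy => by
    show dist y x < δX
    rw [dist_comm]; exact hxy
  have hRγ : ∀ x y, R x y → |γ x - γ y| ≤ 1 := by
    intro x y hxy
    refine hfl _ _ ?_
    have := hu1 (lt_of_lt_of_le (show dist x y < δX from hxy) (min_le_left _ _))
    rwa [Real.dist_eq] at this
  have hκs : ∀ k, |κ (k + 1) - κ k| ≤ 1 := by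
    intro k
    rw [abs_sub_comm]
    refine hfl _ _ ?_
    have := hu2 (lt_of_lt_of_le (hst k) ((min_le_left _ _).trans (min_le_left _ _)))
    rwa [Real.dist_eq] at this
  have h0 : γ x₀ = κ 0 := by
    simp only [hγ, hκ, hw0, h]
  have hW : ∀ j ≤ L, Window R γ κ x₀ j := by
    intro j _
    obtain ⟨im, him, himm⟩ := Finset.exists_min_image (Finset.range (j + 1))
      (fun i => Φ (ψ (w i))) ⟨0, by simp⟩
    obtain ⟨iM, hiM, hiMM⟩ := Finset.exists_max_image (Finset.range (j + 1))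
      (fun i => Φ (ψ (w i))) ⟨0, by simp⟩
    rw [Finset.mem_range] at him hiM
    simp only [Finset.mem_range] at himm hiMM
    set m := Φ (ψ (w im)) with hm
    set M := Φ (ψ (w iM)) with hM
    obtain ⟨⟨x, hx, hxm⟩, ⟨x', hx', hxM⟩⟩ := hwin w j hw0
      (fun k _ => lt_of_lt_of_le (hst k) ((min_le_left _ _).trans (min_le_right _ _))) m M
      (fun i hi => ⟨himm i (by omega), hiMM i (by omega)⟩) ⟨im, by omega, rfl⟩
      ⟨iM, by omega, rfl⟩
    have em : rmin κ j = ⌊m⌋ := by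
      apply le_antisymm
      · exact rmin_le κ (i := im) (by omega)
      · obtain ⟨i, hi, hki⟩ := rmin_att κ j
        rw [← hki]
        exact Int.floor_le_floor (himm i (by omega))
    have eM : rmax κ j = ⌊M⌋ := by
      apply le_antisymm
      · obtain ⟨i, hi, hki⟩ := rmax_att κ j
        rw [← hki]
        exact Int.floor_le_floor (hiMM i (by omega))
      · exact le_rmax κ (i := iM) (by omega)
    have f1 : ∀ t : ℝ, m - 1 ≤ t → ⌊m⌋ - 1 ≤ ⌊t⌋ := by
      intro t ht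
      rw [← Int.floor_sub_one]; exact Int.floor_le_floor ht
    have f2 : ∀ t : ℝ, t ≤ M + 1 → ⌊t⌋ ≤ ⌊M⌋ + 1 := by
      intro t ht
      rw [← Int.floor_add_one]; exact Int.floor_le_floor ht
    have conv : ∀ x, Relation.ReflTransGen (fun y y' => dist y y' < δX ∧
        (m - 1 ≤ Φ (f y) ∧ Φ (f y) ≤ M + 1) ∧ (m - 1 ≤ Φ (f y') ∧ Φ (f y') ≤ M + 1)) x₀ x →
        WChain R γ (rmin κ j - 1) (rmax κ j + 1) x₀ x := by
      intro x hx
      rw [em, eM]
      refine rtg_mono ?_ hx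
      rintro y y' ⟨c1, ⟨c2, c3⟩, c4, c5⟩
      exact ⟨c1, ⟨f1 _ c2, f2 _ c3⟩, f1 _ c4, f2 _ c5⟩
    refine ⟨⟨x, conv x hx, ?_⟩, ⟨x', conv x' hx', ?_⟩⟩
    · rw [em, ← Int.floor_add_one]; exact Int.floor_le_floor hxm
    · rw [eM, ← Int.floor_sub_one]; exact Int.floor_le_floor hxM
  obtain ⟨v, hv⟩ := reach hR hRγ hκs h0 L hW
  refine ⟨v, ?_⟩
  have key := rtg_lift (s := fun p q : X × Q => dist p q < ε ∧
      dist (f p.1) (ψ p.2) < ε ∧ dist (f q.1) (ψ q.2) < ε)
    (fun p : X × ℕ => (p.1, w p.2)) ?_ hv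
  · simpa only [hw0, hwL L le_rfl] using key
  rintro ⟨x, i⟩ ⟨y, i'⟩ ⟨⟨c1, ⟨c2, c3⟩, c4, c5⟩, -⟩
  simp only at c1 c2 c3 c4 c5 ⊢
  have near : ∀ (x : X) (i : ℕ), |γ x - κ i| ≤ 4 → dist (f x) (ψ (w i)) < ε := by
    intro x i hxi
    apply hclose
    rw [abs_le] at hxi
    have g1 := Int.floor_le (Φ (f x))
    have g2 := Int.lt_floor_add_one (Φ (f x))
    have g3 := Int.floor_le (Φ (ψ (w i)))
    have g4 := Int.lt_floor_add_one (Φ (ψ (w i)))
    have g5 : ((⌊Φ (f x)⌋ : ℤ) : ℝ) - ⌊Φ (ψ (w i))⌋ ≤ 4 := by exact_mod_cast hxi.2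
    have g6 : (-4 : ℝ) ≤ ((⌊Φ (f x)⌋ : ℤ) : ℝ) - ⌊Φ (ψ (w i))⌋ := by exact_mod_cast hxi.1
    rw [abs_lt]
    constructor <;> linarith
  refine ⟨?_, near x i c4, near y i' c5⟩
  rw [Prod.dist_eq]
  refine max_lt ?_ ?_
  · rcases c1 with c1 | c1
    · exact lt_of_lt_of_le c1 (min_le_right _ _)
    · simp only [c1, dist_self]; exact hε
  · have hQε : δQ ≤ ε := min_le_right _ _
    rcases Nat.lt_trichotomy i i' with hi | hi | hi
    · have : i' = i + 1 := by omega
      subst this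
      exact (hst i).trans_le hQε
    · subst hi
      simp only [dist_self]; exact hε
    · have : i = i' + 1 := by omega
      subst this
      simp only
      rw [dist_comm]
      exact (hst i').trans_le hQε

/-- **Pullbacks along confluent maps onto arc-like continua.** Each component of the pullback
projects onto the base. -/
theorem pullback_onto [CompactSpace X] [CompactSpace Y] [CompactSpace Q] [ConnectedSpace Q]
    {f : X → Y} (hf : Confluent f) (hY : ArcLike Y) {ψ : Q → Y} (hψ : Continuous ψ)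
    {x₀ : X} {q₀ : Q} (h : f x₀ = ψ q₀) (q₁ : Q) :
    ∃ x₁ : X, (x₁, q₁) ∈ connectedComponentIn {p : X × Q | f p.1 = ψ p.2} (x₀, q₀) := by
  have hD : Continuous (fun p : X × Q => dist (f p.1) (ψ p.2)) :=
    (hf.continuous.comp continuous_fst).dist (hψ.comp continuous_snd)
  obtain ⟨z, hz, hzc⟩ := component_meets (D := fun p : X × Q => dist (f p.1) (ψ p.2)) hD
    (p₀ := (x₀, q₀)) (F := {p | p.2 = q₁}) (isClosed_eq continuous_snd continuous_const)
    (fun ε hε => by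
      obtain ⟨x₁, hx₁⟩ := exists_chain hf hY hψ h q₁ hε
      refine ⟨(x₁, q₁), rfl, rtg_mono ?_ hx₁⟩
      rintro p q ⟨c1, c2, c3⟩
      exact ⟨c1, by rwa [abs_of_nonneg dist_nonneg], by rwa [abs_of_nonneg dist_nonneg]⟩)
    (by simp only [h, dist_self])
  refine ⟨z.1, ?_⟩
  have e1 : {p : X × Q | dist (f p.1) (ψ p.2) = 0} = {p | f p.1 = ψ p.2} := by
    ext p; exact dist_eq_zero
  rw [e1] at hzc
  have : z = (z.1, q₁) := Prod.ext rfl hz
  rwa [← this]

end

/-! ### Products of maps -/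

section

variable {X Y Z W : Type} [MetricSpace X] [MetricSpace Y] [MetricSpace Z] [MetricSpace W]

/-- `f × id` is confluent. -/
theorem confluent_prod_id [CompactSpace X] [CompactSpace Y] [CompactSpace Z]
    {f : X → Y} (hf : Confluent f) (hY : ArcLike Y) :
    Confluent (Prod.map f (id : Z → Z)) := by
  have hc : Continuous (Prod.map f (id : Z → Z)) := hf.continuous.prodMap continuous_id
  refine ⟨hc, hf.surjective.prodMap Function.surjective_id, ?_⟩
  rintro L ⟨hLc, hLn⟩ C ⟨⟨x₀, z₀⟩, h₀, rfl⟩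
  apply Subset.antisymm
  · rintro _ ⟨p, hp, rfl⟩
    have hp' : p ∈ Prod.map f id ⁻¹' L := connectedComponentIn_subset _ _ hp
    exact hp'
  · intro l hl
    have : CompactSpace L := isCompact_iff_compactSpace.mp hLc
    have : ConnectedSpace L := isConnected_iff_connectedSpace.mp hLn
    let ψ : L → Y := fun l => l.1.1
    have hψ : Continuous ψ := continuous_fst.comp continuous_subtype_val
    let l₀ : L := ⟨(f x₀, z₀), h₀⟩
    obtain ⟨x₁, hx₁⟩ := pullback_onto hf hY hψ (x₀ := x₀) (q₀ := l₀) rfl ⟨l, hl⟩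
    let θ : X × L → X × Z := fun p => (p.1, p.2.1.2)
    have hθ : Continuous θ :=
      continuous_fst.prodMk (continuous_snd.comp (continuous_subtype_val.comp continuous_snd))
    have himg : θ '' connectedComponentIn {p : X × L | f p.1 = ψ p.2} (x₀, l₀) ⊆
        connectedComponentIn (Prod.map f id ⁻¹' L) (x₀, z₀) := by
      refine (isPreconnected_connectedComponentIn.image _
        hθ.continuousOn).subset_connectedComponentIn ?_ ?_
      · exact ⟨(x₀, l₀), mem_connectedComponentIn rfl, rfl⟩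
      · rintro _ ⟨p, hp, rfl⟩
        have hp0 : p ∈ {p : X × L | f p.1 = ψ p.2} := connectedComponentIn_subset _ _ hp
        have hp' : f p.1 = p.2.1.1 := hp0
        show (f p.1, p.2.1.2) ∈ L
        rw [hp']
        exact p.2.2
    have h0 : (x₁, (⟨l, hl⟩ : L)) ∈ {p : X × L | f p.1 = ψ p.2} :=
      connectedComponentIn_subset _ _ hx₁
    have h1 : f x₁ = l.1 := h0
    refine ⟨θ (x₁, ⟨l, hl⟩), himg ⟨_, hx₁, rfl⟩, ?_⟩
    show (f x₁, l.2) = l
    rw [h1]

/-- A homeomorphism is confluent. -/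
theorem confluent_homeo (e : X ≃ₜ Y) : Confluent e := by
  refine ⟨e.continuous, e.surjective, ?_⟩
  rintro K ⟨hKc, hKn⟩ C ⟨x, hx, rfl⟩
  have hpre : IsPreconnected (e ⁻¹' K) := by
    have := hKn.isPreconnected.image e.symm e.symm.continuous.continuousOn
    rwa [e.symm.image_eq_preimage_symm] at this
  rw [hpre.connectedComponentIn hx]
  exact image_preimage_eq K e.surjective

/-- The composition of confluent maps is confluent. -/
theorem Confluent.comp' [CompactSpace Y] {g : Y → Z} {f : X → Y} (hg : Confluent g)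
    (hf : Confluent f) : Confluent (g ∘ f) := by
  refine ⟨hg.continuous.comp hf.continuous, hg.surjective.comp hf.surjective, ?_⟩
  rintro K hK C ⟨x, hx, rfl⟩
  have hgx : f x ∈ g ⁻¹' K := hx
  set D := connectedComponentIn (g ⁻¹' K) (f x) with hD
  have hDK : g '' D = K := hg.image_component K hK D ⟨f x, hgx, rfl⟩
  have hDsub : IsSubcontinuum D := by
    refine ⟨IsClosed.isCompact ?_, isConnected_connectedComponentIn_iff.mpr hgx⟩
    have hcl : IsClosed (g ⁻¹' K) := hK.1.isClosed.preimage hg.continuous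
    rw [← closure_subset_iff_isClosed]
    refine isPreconnected_connectedComponentIn.closure.subset_connectedComponentIn
      (subset_closure (mem_connectedComponentIn hgx)) ?_
    exact (closure_mono (connectedComponentIn_subset _ _)).trans hcl.closure_subset
  have hxD : x ∈ f ⁻¹' D := mem_connectedComponentIn hgx
  set E := connectedComponentIn (f ⁻¹' D) x with hE
  have hED : f '' E = D := hf.image_component D hDsub E ⟨x, hxD, rfl⟩
  have hEC : E ⊆ connectedComponentIn (g ∘ f ⁻¹' K) x := by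
    refine connectedComponentIn_mono x ?_
    intro y hy
    have hy' : f y ∈ D := hy
    exact connectedComponentIn_subset (g ⁻¹' K) (f x) hy'
  apply Subset.antisymm
  · rintro _ ⟨y, hy, rfl⟩
    have hy' : y ∈ g ∘ f ⁻¹' K := connectedComponentIn_subset _ _ hy
    exact hy'
  · intro k hk
    rw [← hDK, ← hED] at hk
    obtain ⟨_, ⟨y, hy, rfl⟩, rfl⟩ := hk
    exact ⟨y, hEC hy, rfl⟩

/-- The product of two confluent maps onto arc-like continua is confluent. -/
theorem confluent_prod [CompactSpace X] [CompactSpace Y] [CompactSpace Z] [CompactSpace W]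
    {f : X → Y} (hf : Confluent f) (hY : ArcLike Y) {g : Z → W} (hg : Confluent g)
    (hW : ArcLike W) : Confluent (Prod.map f g) := by
  have h1 : Confluent (Prod.map f (id : Z → Z)) := confluent_prod_id hf hY
  have h2 : Confluent (Prod.map g (id : Y → Y)) := confluent_prod_id hg hW
  have h3 := Confluent.comp' (confluent_homeo (Homeomorph.prodComm W Y))
    (Confluent.comp' h2 (Confluent.comp' (confluent_homeo (Homeomorph.prodComm Y Z)) h1))
  have e : (Homeomorph.prodComm W Y) ∘ Prod.map g (id : Y → Y) ∘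
      (Homeomorph.prodComm Y Z) ∘ Prod.map f (id : Z → Z) = Prod.map f g := by
    funext p; rfl
  rwa [e] at h3

end

end Pool.Agent.ArcConfl
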