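import Mathlib

set_option autoImplicit false

/-!
# Discrete mountain climbing
-/

open Set

namespace Pool.Agent.ArcConfl

/-! ### Reflexive transitive closures -/

theorem rtg_symm {α : Type*} {r : α → α → Prop} (hr : ∀ a b, r a b → r b a) {a b : α}
    (h : Relation.ReflTransGen r a b) : Relation.ReflTransGen r b a := by
  induction h with
  | refl => exact Relation.ReflTransGen.refl
  | tail _ b c => exact Relation.ReflTransGen.head (hr _ _ b) c

theorem rtg_lift {α β : Type*} {r : α → α → Prop} {s : β → β → Prop} (f : α → β)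
    (hr : ∀ a b, r a b → s (f a) (f b)) {a b : α}
    (h : Relation.ReflTransGen r a b) : Relation.ReflTransGen s (f a) (f b) := by
  induction h with
  | refl => exact Relation.ReflTransGen.refl
  | tail _ b c => exact Relation.ReflTransGen.tail c (hr _ _ b)

theorem rtg_mono {α : Type*} {r s : α → α → Prop} (hr : ∀ a b, r a b → s a b) {a b : α}
    (h : Relation.ReflTransGen r a b) : Relation.ReflTransGen s a b :=
  rtg_lift id hr h

/-- One move in the coincidence graph of `G` and `H`, inside `I × J`. -/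
def MStep (G H : ℕ → ℤ) (I J : Set ℕ) (p q : ℕ × ℕ) : Prop :=
  (p.1 ∈ I ∧ p.2 ∈ J ∧ q.1 ∈ I ∧ q.2 ∈ J) ∧ (G p.1 = H p.2 ∧ G q.1 = H q.2) ∧
  (p.1 ≤ q.1 + 1 ∧ q.1 ≤ p.1 + 1) ∧ (p.2 ≤ q.2 + 1 ∧ q.2 ≤ p.2 + 1)

/-- Connectivity in the coincidence graph. -/
def MConn (G H : ℕ → ℤ) (I J : Set ℕ) : ℕ × ℕ → ℕ × ℕ → Prop :=
  Relation.ReflTransGen (MStep G H I J)

theorem MStep.symm {G H : ℕ → ℤ} {I J : Set ℕ} {p q : ℕ × ℕ} (h : MStep G H I J p q) :
    MStep G H I J q p := by
  obtain ⟨⟨h1, h2, h3, h4⟩, ⟨h5, h6⟩, ⟨h7, h8⟩, h9, h10⟩ := h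
  exact ⟨⟨h3, h4, h1, h2⟩, ⟨h6, h5⟩, ⟨h8, h7⟩, h10, h9⟩

theorem MConn.symm {G H : ℕ → ℤ} {I J : Set ℕ} {p q : ℕ × ℕ} (h : MConn G H I J p q) :
    MConn G H I J q p :=
  rtg_symm (fun _ _ h => MStep.symm h) h

theorem MConn.swap {G H : ℕ → ℤ} {I J : Set ℕ} {p q : ℕ × ℕ} (h : MConn G H I J p q) :
    MConn H G J I p.swap q.swap := by
  refine rtg_lift Prod.swap ?_ h
  rintro a b ⟨⟨h1, h2, h3, h4⟩, ⟨h5, h6⟩, ⟨h7, h8⟩, h9, h10⟩
  exact ⟨⟨h2, h1, h4, h3⟩, ⟨h5.symm, h6.symm⟩, ⟨h9, h10⟩, h7, h8⟩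

theorem MConn.neg {G H : ℕ → ℤ} {I J : Set ℕ} {p q : ℕ × ℕ}
    (h : MConn (fun k => - G k) (fun k => - H k) I J p q) : MConn G H I J p q := by
  refine rtg_mono ?_ h
  rintro a b ⟨h1, ⟨h5, h6⟩, h2⟩
  exact ⟨h1, ⟨neg_injective h5, neg_injective h6⟩, h2⟩

/-- the last visit to a level -/
theorem last_time {H : ℕ → ℤ} (hH : ∀ k, |H (k + 1) - H k| ≤ 1) (j j' : ℕ) (l : ℤ)
    (h1 : H j ≤ l) (h2 : l ≤ H j') :
    ∃ q ∈ uIcc j j', H q = l ∧ ∀ t ∈ uIcc q j', l ≤ H t := by
  obtain ⟨q, hq, hmin⟩ := Finset.exists_min_image ((Finset.uIcc j j').filter (fun q => H q ≤ l))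
    (fun q => (q - j') + (j' - q)) ⟨j, by simp [h1]⟩
  simp only [Finset.mem_filter, Finset.mem_uIcc] at hq hmin
  have hq' : q ∈ uIcc j j' := by rw [Set.mem_uIcc]; rcases hq.1 with ⟨h, h'⟩; simp at h h'; omega
  have key : ∀ t ∈ uIcc q j', t ≠ q → l < H t := by
    intro t ht htq
    by_contra hcon
    rw [Set.mem_uIcc] at ht hq'
    have := hmin t ⟨by constructor <;> simp <;> omega, not_lt.mp hcon⟩
    omega
  have hql : H q = l := by
    rcases eq_or_ne q j' with rfl | hne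
    · exact le_antisymm hq.2 h2
    · apply le_antisymm hq.2
      rcases lt_or_gt_of_ne hne with h | h
      · have h3 := key (q + 1) (by rw [Set.mem_uIcc]; omega) (by omega)
        have h4 := hH q
        rw [abs_le] at h4
        omega
      · obtain ⟨r, rfl⟩ : ∃ r, q = r + 1 := ⟨q - 1, by omega⟩
        have h3 := key r (by rw [Set.mem_uIcc]; omega) (by omega)
        have h4 := hH r
        rw [abs_le] at h4
        omega
  refine ⟨q, hq', hql, fun t ht => ?_⟩
  rcases eq_or_ne t q with rfl | h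
  · exact hql.ge
  · exact (key t ht h).le

/-- distance in `ℕ` -/
abbrev ds (i j : ℕ) : ℕ := (i - j) + (j - i)

/-- The statement of the mountain climbing lemma with total length at most `n`. -/
def MC (n : ℕ) : Prop :=
  ∀ (G H : ℕ → ℤ), (∀ k, |G (k + 1) - G k| ≤ 1) → (∀ k, |H (k + 1) - H k| ≤ 1) →
    ∀ (I J : Set ℕ) (i i' j j' : ℕ) (lo hi : ℤ), ds i i' + ds j j' < n →
    uIcc i i' ⊆ I → uIcc j j' ⊆ J → G i = lo → H j = lo → G i' = hi → H j' = hi →
    (∀ k ∈ uIcc i i', lo ≤ G k ∧ G k ≤ hi) → (∀ k ∈ uIcc j j', lo ≤ H k ∧ H k ≤ hi) →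
    MConn G H I J (i, j) (i', j')

theorem uIcc_sub {a b c : ℕ} (h : c ∈ uIcc a b) : uIcc c b ⊆ uIcc a b := by
  intro t ht
  rw [Set.mem_uIcc] at *
  omega

theorem uIcc_sub' {a b c d : ℕ} (h : c ∈ uIcc a b) (h' : d ∈ uIcc a b) :
    uIcc c d ⊆ uIcc a b := by
  intro t ht
  rw [Set.mem_uIcc] at *
  omega

/-- the case of an interior visit to the top -/
theorem caseA {n : ℕ} (ih : MC n) {G H : ℕ → ℤ} (hG : ∀ k, |G (k + 1) - G k| ≤ 1)
    (hH : ∀ k, |H (k + 1) - H k| ≤ 1) {I J : Set ℕ} {i i' j j' : ℕ} {lo hi : ℤ}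
    (hn : ds i i' + ds j j' < n + 1) (hI : uIcc i i' ⊆ I) (hJ : uIcc j j' ⊆ J)
    (h1 : G i = lo) (h2 : H j = lo) (h3 : G i' = hi) (h4 : H j' = hi)
    (h5 : ∀ k ∈ uIcc i i', lo ≤ G k ∧ G k ≤ hi) (h6 : ∀ k ∈ uIcc j j', lo ≤ H k ∧ H k ≤ hi)
    (hlt : lo < hi) {p : ℕ} (hp : p ∈ uIcc i i') (hpi : p ≠ i') (hpG : G p = hi) :
    MConn G H I J (i, j) (i', j') := by
  have hpi0 : p ≠ i := by rintro rfl; omega
  have hp' := hp
  rw [Set.mem_uIcc] at hp'
  -- first climb
  have c1 : MConn G H I J (i, j) (p, j') := by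
    refine ih G H hG hH I J i p j j' lo hi (by simp only [ds] at *; omega)
      ((uIcc_sub' left_mem_uIcc hp).trans hI) hJ h1 h2 hpG h4
      (fun k hk => h5 k (uIcc_sub' left_mem_uIcc hp hk)) h6
  -- the lowest point between `p` and `i'`
  obtain ⟨r, hr, hrmin⟩ := Finset.exists_min_image (Finset.uIcc p i') G ⟨p, by simp⟩
  have hr' : r ∈ uIcc p i' := by
    rw [Set.mem_uIcc]; rw [Finset.mem_uIcc] at hr; simp at hr; omega
  have hrm : ∀ k ∈ uIcc p i', G r ≤ G k := by
    intro k hk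
    refine hrmin k ?_
    rw [Finset.mem_uIcc]; rw [Set.mem_uIcc] at hk; constructor <;> simp <;> omega
  have hri : r ∈ uIcc i i' := uIcc_sub hp hr'
  obtain ⟨q, hq, hql, hqm⟩ := last_time hH j j' (G r) (by rw [h2]; exact (h5 r hri).1)
    (by rw [h4]; exact (h5 r hri).2)
  have hr'' := hr'
  rw [Set.mem_uIcc] at hr''
  have hq' := hq
  rw [Set.mem_uIcc] at hq'
  have c2 : MConn G H I J (r, q) (p, j') := by
    refine ih G H hG hH I J r p q j' (G r) hi (by simp only [ds] at *; omega)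
      ((uIcc_sub' hri hp).trans hI) ((uIcc_sub' hq right_mem_uIcc).trans hJ) rfl hql hpG h4 ?_ ?_
    · intro k hk
      have hk' : k ∈ uIcc p i' := uIcc_sub' hr' left_mem_uIcc hk
      exact ⟨hrm k hk', (h5 k (uIcc_sub hp hk')).2⟩
    · intro k hk
      exact ⟨hqm k hk, (h6 k (uIcc_sub hq hk)).2⟩
  have c3 : MConn G H I J (r, q) (i', j') := by
    refine ih G H hG hH I J r i' q j' (G r) hi (by simp only [ds] at *; omega)
      ((uIcc_sub hri).trans hI) ((uIcc_sub' hq right_mem_uIcc).trans hJ) rfl hql h3 h4 ?_ ?_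
    · intro k hk
      have hk' : k ∈ uIcc p i' := uIcc_sub' hr' right_mem_uIcc hk
      exact ⟨hrm k hk', (h5 k (uIcc_sub hp hk')).2⟩
    · intro k hk
      exact ⟨hqm k hk, (h6 k (uIcc_sub hq hk)).2⟩
  exact (c1.trans c2.symm).trans c3

/-- the next point on the way from `i` to `i'` -/
def nxt (i i' : ℕ) : ℕ := if i < i' then i + 1 else i - 1

theorem nxt_mem {i i' : ℕ} (h : i ≠ i') : nxt i i' ∈ uIcc i i' := by
  unfold nxt; rw [Set.mem_uIcc]; split_ifs <;> omega

theorem nxt_ne {i i' : ℕ} (h : i ≠ i') : nxt i i' ≠ i := by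
  unfold nxt; split_ifs <;> omega

theorem nxt_ds {i i' : ℕ} (h : i ≠ i') : ds (nxt i i') i' < ds i i' := by
  unfold nxt ds; split_ifs <;> omega

theorem nxt_le {i i' : ℕ} : i ≤ nxt i i' + 1 ∧ nxt i i' ≤ i + 1 := by
  unfold nxt; split_ifs <;> omega

theorem nxt_sub {i i' : ℕ} (h : i ≠ i') {k : ℕ} (hk : k ∈ uIcc (nxt i i') i') : k ≠ i := by
  rw [Set.mem_uIcc] at hk; unfold nxt at hk; split_ifs at hk <;> omega

theorem nxt_abs {G : ℕ → ℤ} (hG : ∀ k, |G (k + 1) - G k| ≤ 1) {i i' : ℕ} (h : i ≠ i') :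
    |G (nxt i i') - G i| ≤ 1 := by
  unfold nxt
  split_ifs with h'
  · exact hG i
  · obtain ⟨r, rfl⟩ : ∃ r, i = r + 1 := ⟨i - 1, by omega⟩
    rw [Nat.add_sub_cancel, abs_sub_comm]
    exact hG r

theorem mc_all : ∀ n, MC n := by
  intro n
  induction n with
  | zero => intro G H _ _ I J i i' j j' lo hi h; omega
  | succ n ih =>
    intro G H hG hH I J i i' j j' lo hi hn hI hJ h1 h2 h3 h4 h5 h6
    have hlohi : lo ≤ hi := by rw [← h1]; exact (h5 i left_mem_uIcc).2
    rcases hlohi.lt_or_eq with hlt | heq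
    · -- `lo < hi`
      by_cases hA : ∃ p ∈ uIcc i i', p ≠ i' ∧ G p = hi
      · obtain ⟨p, hp, hpi, hpG⟩ := hA
        exact caseA ih hG hH hn hI hJ h1 h2 h3 h4 h5 h6 hlt hp hpi hpG
      by_cases hB : ∃ p ∈ uIcc j j', p ≠ j' ∧ H p = hi
      · obtain ⟨p, hp, hpi, hpG⟩ := hB
        have := caseA ih hH hG (by simp only [ds] at *; omega) hJ hI h2 h1 h4 h3 h6 h5 hlt hp hpi
          hpG
        exact this.swap
      have hG' : ∀ k, |(fun k => - G k) (k + 1) - (fun k => - G k) k| ≤ 1 := by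
        intro k; have := hG k; rw [abs_le] at *; constructor <;> simp only <;> omega
      have hH' : ∀ k, |(fun k => - H k) (k + 1) - (fun k => - H k) k| ≤ 1 := by
        intro k; have := hH k; rw [abs_le] at *; constructor <;> simp only <;> omega
      by_cases hC : ∃ p ∈ uIcc i i', p ≠ i ∧ G p = lo
      · obtain ⟨p, hp, hpi, hpG⟩ := hC
        have := caseA (G := fun k => - G k) (H := fun k => - H k) (I := I) (J := J) (i := i')
          (i' := i) (j := j') (j' := j) (lo := - hi) (hi := - lo) ih hG' hH'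
          (by simp only [ds] at *; omega) (by rwa [uIcc_comm]) (by rwa [uIcc_comm])
          (by simp only [h3]) (by simp only [h4]) (by simp only [h1]) (by simp only [h2])
          (fun k hk => by rw [uIcc_comm] at hk; have := h5 k hk; constructor <;> omega)
          (fun k hk => by rw [uIcc_comm] at hk; have := h6 k hk; constructor <;> omega)
          (by omega) (p := p) (by rwa [uIcc_comm]) hpi (by simp only [hpG])
        exact this.neg.symm
      by_cases hD : ∃ p ∈ uIcc j j', p ≠ j ∧ H p = lo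
      · obtain ⟨p, hp, hpi, hpG⟩ := hD
        have := caseA (G := fun k => - H k) (H := fun k => - G k) (I := J) (J := I) (i := j')
          (i' := j) (j := i') (j' := i) (lo := - hi) (hi := - lo) ih hH' hG'
          (by simp only [ds] at *; omega) (by rwa [uIcc_comm]) (by rwa [uIcc_comm])
          (by simp only [h4]) (by simp only [h3]) (by simp only [h2]) (by simp only [h1])
          (fun k hk => by rw [uIcc_comm] at hk; have := h6 k hk; constructor <;> omega)
          (fun k hk => by rw [uIcc_comm] at hk; have := h5 k hk; constructor <;> omega)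
          (by omega) (p := p) (by rwa [uIcc_comm]) hpi (by simp only [hpG])
        exact this.neg.symm.swap
      push Not at hA hB hC hD
      have hii : i ≠ i' := by rintro rfl; omega
      have hjj : j ≠ j' := by rintro rfl; omega
      have e1 : G (nxt i i') = lo + 1 := by
        have a1 := nxt_abs hG hii
        have a2 := hC _ (nxt_mem hii) (nxt_ne hii)
        have a3 := h5 _ (nxt_mem hii)
        rw [abs_le] at a1; omega
      have e2 : H (nxt j j') = lo + 1 := by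
        have a1 := nxt_abs hH hjj
        have a2 := hD _ (nxt_mem hjj) (nxt_ne hjj)
        have a3 := h6 _ (nxt_mem hjj)
        rw [abs_le] at a1; omega
      have c1 : MConn G H I J (nxt i i', nxt j j') (i', j') := by
        refine ih G H hG hH I J _ _ _ _ (lo + 1) hi
          (by have := nxt_ds hii; have := nxt_ds hjj; omega)
          ((uIcc_sub (nxt_mem hii)).trans hI) ((uIcc_sub (nxt_mem hjj)).trans hJ) e1 e2 h3 h4
          ?_ ?_
        · intro k hk
          have a1 := h5 k (uIcc_sub (nxt_mem hii) hk)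
          have a2 := hC k (uIcc_sub (nxt_mem hii) hk) (nxt_sub hii hk)
          omega
        · intro k hk
          have a1 := h6 k (uIcc_sub (nxt_mem hjj) hk)
          have a2 := hD k (uIcc_sub (nxt_mem hjj) hk) (nxt_sub hjj hk)
          omega
      refine Relation.ReflTransGen.head ?_ c1
      exact ⟨⟨hI left_mem_uIcc, hJ left_mem_uIcc, hI (nxt_mem hii), hJ (nxt_mem hjj)⟩,
        ⟨h1.trans h2.symm, e1.trans e2.symm⟩, nxt_le, nxt_le⟩
    · -- constant heights
      subst heq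
      have g1 : ∀ k ∈ uIcc i i', G k = lo := fun k hk => le_antisymm (h5 k hk).2 (h5 k hk).1
      have g2 : ∀ k ∈ uIcc j j', H k = lo := fun k hk => le_antisymm (h6 k hk).2 (h6 k hk).1
      rcases eq_or_ne i i' with rfl | hii
      · rcases eq_or_ne j j' with rfl | hjj
        · exact Relation.ReflTransGen.refl
        · have c1 : MConn G H I J (i, nxt j j') (i, j') := by
            refine ih G H hG hH I J _ _ _ _ lo lo (by have := nxt_ds hjj; omega) hI
              ((uIcc_sub (nxt_mem hjj)).trans hJ) h1 (g2 _ (nxt_mem hjj)) h3 h4 h5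
              (fun k hk => h6 k (uIcc_sub (nxt_mem hjj) hk))
          refine Relation.ReflTransGen.head ?_ c1
          exact ⟨⟨hI left_mem_uIcc, hJ left_mem_uIcc, hI left_mem_uIcc, hJ (nxt_mem hjj)⟩,
            ⟨h1.trans h2.symm, h1.trans (g2 _ (nxt_mem hjj)).symm⟩, ⟨by omega, by omega⟩, nxt_le⟩
      · have c1 : MConn G H I J (nxt i i', j) (i', j') := by
          refine ih G H hG hH I J _ _ _ _ lo lo (by have := nxt_ds hii; omega)
            ((uIcc_sub (nxt_mem hii)).trans hI) hJ (g1 _ (nxt_mem hii)) h2 h3 h4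
            (fun k hk => h5 k (uIcc_sub (nxt_mem hii) hk)) h6
        refine Relation.ReflTransGen.head ?_ c1
        exact ⟨⟨hI left_mem_uIcc, hJ left_mem_uIcc, hI (nxt_mem hii), hJ left_mem_uIcc⟩,
          ⟨h1.trans h2.symm, (g1 _ (nxt_mem hii)).trans h2.symm⟩, nxt_le, ⟨by omega, by omega⟩⟩

/-- **Discrete mountain climbing.** -/
theorem mountain {G H : ℕ → ℤ} (hG : ∀ k, |G (k + 1) - G k| ≤ 1)
    (hH : ∀ k, |H (k + 1) - H k| ≤ 1) (i i' j j' : ℕ) (lo hi : ℤ)
    (h1 : G i = lo) (h2 : H j = lo) (h3 : G i' = hi) (h4 : H j' = hi)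
    (h5 : ∀ k ∈ uIcc i i', lo ≤ G k ∧ G k ≤ hi) (h6 : ∀ k ∈ uIcc j j', lo ≤ H k ∧ H k ≤ hi) :
    MConn G H (uIcc i i') (uIcc j j') (i, j) (i', j') :=
  mc_all (ds i i' + ds j j' + 1) G H hG hH _ _ i i' j j' lo hi (by omega) Subset.rfl Subset.rfl
    h1 h2 h3 h4 h5 h6

end Pool.Agent.ArcConfl
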