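import Pool.Agent.ArcConfl.Mountain

set_option autoImplicit false

/-!
# Following a path by climbing in a connected set: the discrete version
-/

open Set

namespace Pool.Agent.ArcConfl

section

variable {V : Type*} (R : V → V → Prop) (γ : V → ℤ) (κ : ℕ → ℤ)

/-- One move of a pair (point, index) through almost coincidences. -/
def SStep (p q : V × ℕ) : Prop :=
  (R p.1 q.1 ∨ p.1 = q.1) ∧ (p.2 ≤ q.2 + 1 ∧ q.2 ≤ p.2 + 1) ∧ |γ p.1 - κ p.2| ≤ 4 ∧
    |γ q.1 - κ q.2| ≤ 4

/-- Reachability through almost coincidences. -/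
def SConn : V × ℕ → V × ℕ → Prop := Relation.ReflTransGen (SStep R γ κ)

/-- Chains in the window `m ≤ γ ≤ M`. -/
def WChain (m M : ℤ) : V → V → Prop :=
  Relation.ReflTransGen (fun x y => R x y ∧ (m ≤ γ x ∧ γ x ≤ M) ∧ (m ≤ γ y ∧ γ y ≤ M))

variable {R γ κ}

theorem WChain.end_mem {m M : ℤ} {x y : V} (h : WChain R γ m M x y) (hx : m ≤ γ x ∧ γ x ≤ M) :
    m ≤ γ y ∧ γ y ≤ M := by
  induction h with
  | refl => exact hx
  | tail _ h _ => exact h.2.2

theorem WChain.mono {m M m' M' : ℤ} (h1 : m' ≤ m) (h2 : M ≤ M') {x y : V}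
    (h : WChain R γ m M x y) : WChain R γ m' M' x y := by
  refine rtg_mono ?_ h
  rintro a b ⟨h3, ⟨h4, h5⟩, h6, h7⟩
  exact ⟨h3, ⟨h1.trans h4, h5.trans h2⟩, h1.trans h6, h7.trans h2⟩

theorem WChain.symm (hR : ∀ x y, R x y → R y x) {m M : ℤ} {x y : V}
    (h : WChain R γ m M x y) : WChain R γ m M y x :=
  rtg_symm (fun _ _ h => ⟨hR _ _ h.1, h.2.2, h.2.1⟩) h

theorem SStep.symm (hR : ∀ x y, R x y → R y x) {p q : V × ℕ} (h : SStep R γ κ p q) :
    SStep R γ κ q p := by
  obtain ⟨h1, ⟨h2, h3⟩, h4, h5⟩ := h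
  refine ⟨?_, ⟨h3, h2⟩, h5, h4⟩
  rcases h1 with h1 | h1
  · exact Or.inl (hR _ _ h1)
  · exact Or.inr h1.symm

theorem SConn.symm (hR : ∀ x y, R x y → R y x) {p q : V × ℕ} (h : SConn R γ κ p q) :
    SConn R γ κ q p :=
  rtg_symm (fun _ _ h => SStep.symm hR h) h

/-- chains as functions -/
theorem WChain.toFun {m M : ℤ} {x y : V} (h : WChain R γ m M x y)
    (hx : m ≤ γ x ∧ γ x ≤ M) :
    ∃ (n : ℕ) (c : ℕ → V), c 0 = x ∧ (∀ k, n ≤ k → c k = y) ∧
      (∀ k, R (c k) (c (k + 1)) ∨ c k = c (k + 1)) ∧ ∀ k, m ≤ γ (c k) ∧ γ (c k) ≤ M := by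
  induction h with
  | refl => exact ⟨0, fun _ => x, rfl, fun _ _ => rfl, fun _ => Or.inr rfl, fun _ => hx⟩
  | @tail b z _ hbz ih =>
      obtain ⟨n, c, h0, h1, h2, h3⟩ := ih
      refine ⟨n + 1, fun k => if k ≤ n then c k else z, by simp [h0], ?_, ?_, ?_⟩
      · intro k hk
        simp only
        rw [if_neg (by omega)]
      · intro k
        simp only
        rcases lt_trichotomy k n with hk | rfl | hk
        · rw [if_pos (by omega), if_pos (by omega)]; exact h2 k
        · rw [if_pos le_rfl, if_neg (by omega), h1 k le_rfl]; exact Or.inl hbz.1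
        · rw [if_neg (by omega), if_neg (by omega)]; exact Or.inr rfl
      · intro k
        simp only
        split_ifs
        · exact h3 k
        · exact hbz.2.2

/-- The mountain climbing lemma for chains. -/
theorem climb (hR : ∀ x y, R x y → R y x) (hRγ : ∀ x y, R x y → |γ x - γ y| ≤ 1)
    (hκ : ∀ k, |κ (k + 1) - κ k| ≤ 1) {m M : ℤ} (hmM : m + 2 ≤ M) {s s' : V}
    (hc : WChain R γ (m - 1) (M + 1) s s') {j j' : ℕ} (hj : κ j ≤ m + 1) (hj' : M - 1 ≤ κ j')
    (hw : ∀ l ∈ uIcc j j', m - 1 ≤ κ l ∧ κ l ≤ M + 1) (hs : γ s ≤ m + 1) (hs' : M - 1 ≤ γ s')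
    (hsw : m - 1 ≤ γ s ∧ γ s ≤ M + 1) :
    SConn R γ κ (s, j) (s', j') := by
  obtain ⟨n, c, h0, h1, h2, h3⟩ := hc.toFun hsw
  have hcn : c n = s' := h1 n le_rfl
  have hγ : ∀ k, |γ (c (k + 1)) - γ (c k)| ≤ 1 := by
    intro k
    rcases h2 k with h | h
    · rw [abs_sub_comm]; exact hRγ _ _ h
    · rw [h]; simp
  have key := mountain (G := fun k => max (m + 1) (min (M - 1) (γ (c k))))
    (H := fun l => max (m + 1) (min (M - 1) (κ l)))
    (fun k => by have := hγ k; rw [abs_le] at *; constructor <;> omega)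
    (fun k => by have := hκ k; rw [abs_le] at *; constructor <;> omega)
    0 n j j' (m + 1) (M - 1) (by rw [h0]; omega) (by omega)
    (by rw [hcn]; omega) (by omega)
    (fun k _ => by omega) (fun k _ => by omega)
  have : SConn R γ κ (c (0, j).1, (0, j).2) (c (n, j').1, (n, j').2) := by
    refine rtg_lift (fun p : ℕ × ℕ => (c p.1, p.2)) ?_ key
    rintro a b ⟨⟨a1, a2, a3, a4⟩, ⟨a5, a6⟩, ⟨a7, a8⟩, a9, a10⟩
    have b1 := h3 a.1
    have b2 := h3 b.1
    have b3 := hw a.2 a2
    have b4 := hw b.2 a4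
    refine ⟨?_, ⟨a9, a10⟩, ?_, ?_⟩
    · rcases Nat.lt_trichotomy a.1 b.1 with h | h | h
      · have : b.1 = a.1 + 1 := by omega
        simp only [this]
        exact h2 _
      · simp only [h]; right; trivial
      · have : a.1 = b.1 + 1 := by omega
        simp only [this]
        rcases h2 b.1 with h' | h'
        · exact Or.inl (hR _ _ h')
        · exact Or.inr h'.symm
    · simp only at a5 ⊢
      rw [abs_le]; constructor <;> omega
    · simp only at a6 ⊢
      rw [abs_le]; constructor <;> omega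
  simpa only [h0, hcn] using this

/-! ### Running minimum and maximum -/

/-- running minimum -/
def rmin (κ : ℕ → ℤ) : ℕ → ℤ
  | 0 => κ 0
  | n + 1 => min (rmin κ n) (κ (n + 1))

/-- running maximum -/
def rmax (κ : ℕ → ℤ) : ℕ → ℤ
  | 0 => κ 0
  | n + 1 => max (rmax κ n) (κ (n + 1))

theorem rmin_le (κ : ℕ → ℤ) {i j : ℕ} (h : i ≤ j) : rmin κ j ≤ κ i := by
  induction j with
  | zero => obtain rfl : i = 0 := by omega
            exact le_rfl
  | succ j ih =>
      rcases Nat.lt_or_ge i (j + 1) with h' | h'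
      · exact (min_le_left _ _).trans (ih (by omega))
      · obtain rfl : i = j + 1 := by omega
        exact min_le_right _ _

theorem le_rmax (κ : ℕ → ℤ) {i j : ℕ} (h : i ≤ j) : κ i ≤ rmax κ j := by
  induction j with
  | zero => obtain rfl : i = 0 := by omega
            exact le_rfl
  | succ j ih =>
      rcases Nat.lt_or_ge i (j + 1) with h' | h'
      · exact (ih (by omega)).trans (le_max_left _ _)
      · obtain rfl : i = j + 1 := by omega
        exact le_max_right _ _

theorem rmin_att (κ : ℕ → ℤ) (j : ℕ) : ∃ i ≤ j, κ i = rmin κ j := by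
  induction j with
  | zero => exact ⟨0, le_rfl, rfl⟩
  | succ j ih =>
      obtain ⟨i, hi, h⟩ := ih
      rcases le_total (rmin κ j) (κ (j + 1)) with h' | h'
      · exact ⟨i, by omega, by rw [h]; exact (min_eq_left h').symm⟩
      · exact ⟨j + 1, le_rfl, (min_eq_right h').symm⟩

theorem rmax_att (κ : ℕ → ℤ) (j : ℕ) : ∃ i ≤ j, κ i = rmax κ j := by
  induction j with
  | zero => exact ⟨0, le_rfl, rfl⟩
  | succ j ih =>
      obtain ⟨i, hi, h⟩ := ih
      rcases le_total (κ (j + 1)) (rmax κ j) with h' | h'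
      · exact ⟨i, by omega, by rw [h]; exact (max_eq_left h').symm⟩
      · exact ⟨j + 1, le_rfl, (max_eq_right h').symm⟩

/-- The window condition. -/
def Window (R : V → V → Prop) (γ : V → ℤ) (κ : ℕ → ℤ) (v₀ : V) (j : ℕ) : Prop :=
  (∃ x, WChain R γ (rmin κ j - 1) (rmax κ j + 1) v₀ x ∧ γ x ≤ rmin κ j + 1) ∧
  ∃ x, WChain R γ (rmin κ j - 1) (rmax κ j + 1) v₀ x ∧ rmax κ j - 1 ≤ γ x

/-- moving the index while the point is fixed, and moving the point while the index is fixed,
in a narrow window -/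
theorem narrow {v₀ : V} (h0 : γ v₀ = κ 0) {j : ℕ}
    (hn : rmax κ j ≤ rmin κ j + 1) {s : V}
    (hc : WChain R γ (rmin κ j - 1) (rmax κ j + 1) v₀ s) : SConn R γ κ (v₀, 0) (s, j) := by
  have hw : ∀ l ≤ j, rmin κ j ≤ κ l ∧ κ l ≤ rmax κ j := fun l hl => ⟨rmin_le κ hl, le_rmax κ hl⟩
  have hv := hw 0 (Nat.zero_le _)
  rw [← h0] at hv
  have e1 : ∀ i ≤ j, SConn R γ κ (v₀, 0) (v₀, i) := by
    intro i
    induction i with
    | zero => intro _; exact Relation.ReflTransGen.refl
    | succ i ih =>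
        intro hi
        refine Relation.ReflTransGen.tail (ih (by omega)) ?_
        have a1 := hw i (by omega)
        have a2 := hw (i + 1) hi
        refine ⟨Or.inr rfl, ⟨by simp only; omega, by simp only; omega⟩, ?_, ?_⟩ <;>
          · simp only; rw [abs_le]; omega
  have e2 : SConn R γ κ (v₀, j) (s, j) := by
    refine rtg_lift (fun x => (x, j)) ?_ hc
    rintro a b ⟨a1, a2, a3⟩
    have a4 := hw j le_rfl
    refine ⟨Or.inl a1, ⟨by simp only; omega, by simp only; omega⟩, ?_, ?_⟩ <;>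
      · simp only; rw [abs_le]; omega
  exact (e1 j le_rfl).trans e2

/-- Every point of the window component at the level of a record is reachable. -/
theorem records (hR : ∀ x y, R x y → R y x) (hRγ : ∀ x y, R x y → |γ x - γ y| ≤ 1)
    (hκ : ∀ k, |κ (k + 1) - κ k| ≤ 1) {v₀ : V} (h0 : γ v₀ = κ 0)
    (hW : ∀ j, Window R γ κ v₀ j) :
    ∀ j s, WChain R γ (rmin κ j - 1) (rmax κ j + 1) v₀ s →
      (κ j = rmax κ j ∧ rmax κ j - 1 ≤ γ s) ∨ (κ j = rmin κ j ∧ γ s ≤ rmin κ j + 1) →
      SConn R γ κ (v₀, 0) (s, j) := by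
  intro j
  induction j using Nat.strong_induction_on with
  | _ j ih =>
    intro s hs hcase
    by_cases hn : rmax κ j ≤ rmin κ j + 1
    · exact narrow h0 hn hs
    push Not at hn
    have hw : ∀ l ≤ j, rmin κ j ≤ κ l ∧ κ l ≤ rmax κ j :=
      fun l hl => ⟨rmin_le κ hl, le_rmax κ hl⟩
    have hv := hw 0 (Nat.zero_le _)
    rw [← h0] at hv
    have hsw := hs.end_mem (by omega)
    rcases hcase with ⟨hj, hs'⟩ | ⟨hj, hs'⟩
    · obtain ⟨i, hi, hki⟩ := rmin_att κ j
      have hij : i ≠ j := by rintro rfl; omega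
      have hmi : rmin κ i = rmin κ j := by
        apply le_antisymm
        · rw [← hki]; exact rmin_le κ le_rfl
        · obtain ⟨i', hi', hk'⟩ := rmin_att κ i
          rw [← hk']; exact rmin_le κ (hi'.trans hi)
      have hMi : rmax κ i ≤ rmax κ j := by
        obtain ⟨i', hi', hk'⟩ := rmax_att κ i
        rw [← hk']; exact le_rmax κ (hi'.trans hi)
      obtain ⟨x, hx, hx'⟩ := (hW i).1
      have c1 := ih i (by omega) x hx (Or.inr ⟨by omega, hx'⟩)
      have hx2 : WChain R γ (rmin κ j - 1) (rmax κ j + 1) v₀ x :=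
        hx.mono (by omega) (by omega)
      have c2 : SConn R γ κ (x, i) (s, j) := by
        refine climb hR hRγ hκ (m := rmin κ j) (M := rmax κ j) (by omega)
          ((hx2.symm hR).trans hs) (by omega) (by omega) ?_ (by omega) hs'
          (hx2.end_mem (by omega))
        intro l hl
        rw [Set.mem_uIcc] at hl
        have := hw l (by omega)
        omega
      exact c1.trans c2
    · obtain ⟨i, hi, hki⟩ := rmax_att κ j
      have hij : i ≠ j := by rintro rfl; omega
      have hMi : rmax κ i = rmax κ j := by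
        apply le_antisymm
        · obtain ⟨i', hi', hk'⟩ := rmax_att κ i
          rw [← hk']; exact le_rmax κ (hi'.trans hi)
        · rw [← hki]; exact le_rmax κ le_rfl
      have hmi : rmin κ j ≤ rmin κ i := by
        obtain ⟨i', hi', hk'⟩ := rmin_att κ i
        rw [← hk']; exact rmin_le κ (hi'.trans hi)
      obtain ⟨x, hx, hx'⟩ := (hW i).2
      have c1 := ih i (by omega) x hx (Or.inl ⟨by omega, hx'⟩)
      have hx2 : WChain R γ (rmin κ j - 1) (rmax κ j + 1) v₀ x :=
        hx.mono (by omega) (by omega)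
      have c2 : SConn R γ κ (s, j) (x, i) := by
        refine climb hR hRγ hκ (m := rmin κ j) (M := rmax κ j) (by omega)
          ((hs.symm hR).trans hx2) (by omega) (by omega) ?_ hs' (by omega) hsw
        intro l hl
        rw [Set.mem_uIcc] at hl
        have := hw l (by omega)
        omega
      exact c1.trans (c2.symm hR)

/-- the path `κ` up to the index `L`, prolonged monotonically to its maximum -/
def ext (κ : ℕ → ℤ) (L i : ℕ) : ℤ := if i ≤ L then κ i else min (κ L + (i - L)) (rmax κ L)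

theorem ext_le (κ : ℕ → ℤ) {L i : ℕ} (h : i ≤ L) : ext κ L i = κ i := if_pos h

theorem rmin_ext (κ : ℕ → ℤ) {L j : ℕ} (h : j ≤ L) : rmin (ext κ L) j = rmin κ j := by
  induction j with
  | zero => exact ext_le κ h
  | succ j ih => simp only [rmin, ih (by omega), ext_le κ h]

theorem rmax_ext (κ : ℕ → ℤ) {L j : ℕ} (h : j ≤ L) : rmax (ext κ L) j = rmax κ j := by
  induction j with
  | zero => exact ext_le κ h
  | succ j ih => simp only [rmax, ih (by omega), ext_le κ h]

theorem ext_bd (κ : ℕ → ℤ) {L i : ℕ} (h : L < i) :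
    κ L ≤ ext κ L i ∧ ext κ L i ≤ rmax κ L := by
  have := le_rmax κ (le_refl L)
  unfold ext
  rw [if_neg (by omega)]
  omega

theorem rmin_ext' (κ : ℕ → ℤ) {L : ℕ} (j : ℕ) : rmin (ext κ L) (L + j) = rmin κ L := by
  induction j with
  | zero => exact rmin_ext κ le_rfl
  | succ j ih =>
      have h1 := ext_bd κ (L := L) (i := L + j + 1) (by omega)
      have h2 := rmin_le κ (le_refl L)
      show min (rmin (ext κ L) (L + j)) (ext κ L (L + j + 1)) = _
      rw [ih]; omega

theorem rmax_ext' (κ : ℕ → ℤ) {L : ℕ} (j : ℕ) : rmax (ext κ L) (L + j) = rmax κ L := by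
  induction j with
  | zero => exact rmax_ext κ le_rfl
  | succ j ih =>
      have h1 := ext_bd κ (L := L) (i := L + j + 1) (by omega)
      show max (rmax (ext κ L) (L + j)) (ext κ L (L + j + 1)) = _
      rw [ih]; omega

theorem ext_step (κ : ℕ → ℤ) (hκ : ∀ k, |κ (k + 1) - κ k| ≤ 1) (L : ℕ) :
    ∀ k, |ext κ L (k + 1) - ext κ L k| ≤ 1 := by
  intro k
  have h1 := hκ k
  have h2 := le_rmax κ (le_refl L)
  unfold ext
  rcases Nat.lt_trichotomy k L with h | rfl | h
  · rw [if_pos (by omega), if_pos (by omega)]; exact h1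
  · rw [if_neg (by omega), if_pos le_rfl, abs_le]
    push_cast
    omega
  · rw [if_neg (by omega), if_neg (by omega), abs_le]
    push_cast
    omega

/-- **Following a path.** -/
theorem reach (hR : ∀ x y, R x y → R y x) (hRγ : ∀ x y, R x y → |γ x - γ y| ≤ 1)
    (hκ : ∀ k, |κ (k + 1) - κ k| ≤ 1) {v₀ : V} (h0 : γ v₀ = κ 0) (L : ℕ)
    (hW : ∀ j ≤ L, Window R γ κ v₀ j) :
    ∃ v, Relation.ReflTransGen (fun p q => SStep R γ κ p q ∧ p.2 ≤ L ∧ q.2 ≤ L)
      (v₀, 0) (v, L) := by
  have hW' : ∀ j, Window R γ (ext κ L) v₀ j := by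
    intro j
    rcases le_or_gt j L with h | h
    · have := hW j h
      unfold Window at *
      rw [rmin_ext κ h, rmax_ext κ h]
      exact this
    · obtain ⟨d, rfl⟩ := Nat.exists_eq_add_of_le h.le
      have := hW L le_rfl
      unfold Window at *
      rw [rmin_ext', rmax_ext']
      exact this
  obtain ⟨d, hd⟩ : ∃ d : ℕ, (d : ℤ) = rmax κ L - κ L :=
    ⟨(rmax κ L - κ L).toNat, Int.toNat_of_nonneg (by have := le_rmax κ (le_refl L); omega)⟩
  have hrec : ext κ L (L + d) = rmax (ext κ L) (L + d) := by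
    rw [rmax_ext']
    unfold ext
    split_ifs with h
    · have : d = 0 := by omega
      subst this
      simp only [add_zero]
      omega
    · push_cast; omega
  obtain ⟨x, hx, hx'⟩ := (hW' (L + d)).2
  have key := records hR hRγ (ext_step κ hκ L) (h0.trans (ext_le κ (Nat.zero_le _)).symm) hW'
    (L + d) x hx (Or.inl ⟨hrec, hx'⟩)
  -- stop at the index `L`
  have stop : ∀ p q : V × ℕ, SConn R γ (ext κ L) p q → p.2 ≤ L → L ≤ q.2 →
      ∃ v, Relation.ReflTransGen (fun p q => SStep R γ κ p q ∧ p.2 ≤ L ∧ q.2 ≤ L) p (v, L) := by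
    intro p q hpq
    induction hpq using Relation.ReflTransGen.head_induction_on with
    | refl =>
        intro h1 h2
        refine ⟨q.1, ?_⟩
        have : q = (q.1, L) := Prod.ext rfl (le_antisymm h1 h2)
        rw [← this]
    | @head a c hac _ ih =>
        intro h1 h2
        rcases h1.lt_or_eq with h | h
        · have hc : c.2 ≤ L := by have := hac.2.1; omega
          obtain ⟨v, hv⟩ := ih hc h2
          refine ⟨v, Relation.ReflTransGen.head ⟨?_, h1, hc⟩ hv⟩
          obtain ⟨b1, b2, b3, b4⟩ := hac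
          rw [ext_le κ h1] at b3
          rw [ext_le κ hc] at b4
          exact ⟨b1, b2, b3, b4⟩
        · refine ⟨a.1, ?_⟩
          have : a = (a.1, L) := Prod.ext rfl h
          rw [← this]
  exact stop _ _ key (Nat.zero_le _) (by simp)

end

end Pool.Agent.ArcConfl
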